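import Pool.Agent.MP_1ca51f_al.Mg.Main

/-!
For a central arrangement in four variables over a field of characteristic zero all of whose
circuits have at least four elements, the Jacobian ideal is syzygetic.
-/

namespace Pool.Agent.Results.MP_1ca51f_al.Syzygetic

open Pool.Agent.MP_1ca51f_al

theorem result {k : Type*} [Field k] [CharZero k] {m : ℕ}
    (l : Fin m → MvPolynomial (Fin 4) k) (hl : ∀ i, (l i).IsHomogeneous 1)
    (hg : ∀ C, IsCircuit k l C → 4 ≤ C.card) : IsSyzygetic (jacobianIdeal (∏ i, l i)) :=
  main l hl hg

end Pool.Agent.Results.MP_1ca51f_al.Syzygetic
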